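import Pool.Agent.Lib.MP_21a028_co.Three
import Pool.Agent.Lib.MP_21a028_co.Four

/-!
# Graphs of clique-width at most `t` are DOM-bounded exactly for `t ≤ 3`

`DomBounded t` says that the class of graphs of clique-width at most `t` is DOM-bounded.
-/

namespace Pool.Agent.Results.MP_21a028_co.DomBoundedIff

open Pool.Agent.Lib.MP_21a028_co

/-- **Main theorem.** The class of graphs of clique-width at most `t` is DOM-bounded if and only if
`t ≤ 3`. -/
theorem result (t : ℕ) : DomBounded t ↔ t ≤ 3 := by
  constructor
  · intro h
    by_contra ht
    exact not_domBounded (by omega) h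
  · intro ht
    exact domBounded_of_le_three ht

end Pool.Agent.Results.MP_21a028_co.DomBoundedIff
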